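import Mathlib
import Pool.Agent.TH138.LG.Pump2

/-!
# A finite set `I` with `⊢_I^*` a well quasi-order on `L_I` and `L_I` not context-free

`I` is the set of the six permutations of the word `abc`.
-/

set_option autoImplicit false

namespace Pool.Agent.Results.MP_709eaf_lc.PermutationInsertion

open Pool.Agent.TH138.LG

/-- `u ⊢_I v`: there are `n ≥ 1`, words `u₁, …, uₙ₊₁` and letters `a₁, …, aₙ` with
`a₁ ⋯ aₙ ∈ I`, `u = u₁ u₂ ⋯ uₙ₊₁` and `v = u₁ a₁ u₂ a₂ ⋯ uₙ aₙ uₙ₊₁`. The list `l` is
`(u₁, a₁), …, (uₙ, aₙ)` and `r` is `uₙ₊₁`. -/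
def Step {A : Type} (I : Set (List A)) (u v : List A) : Prop :=
  ∃ (l : List (List A × A)) (r : List A), l ≠ [] ∧ l.map Prod.snd ∈ I ∧
    u = (l.map Prod.fst).flatten ++ r ∧ v = (l.map fun p => p.1 ++ [p.2]).flatten ++ r

/-- `⊢_I^*`, the reflexive and transitive closure of `⊢_I`. -/
def Steps {A : Type} (I : Set (List A)) : List A → List A → Prop :=
  Relation.ReflTransGen (Step I)

/-- `L_I`, the set of the words `u` with `ε ⊢_I^* u`. -/
def L {A : Type} (I : Set (List A)) : Language A := {u | Steps I [] u}

/-- `⊢_I^*` is a well quasi-order on `L_I`: it is a quasi-order (this is automatic), and every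
infinite sequence of words of `L_I` has indices `i < j` with `xᵢ ⊢_I^* xⱼ`. -/
def WqoOn {A : Type} (I : Set (List A)) : Prop :=
  ∀ x : ℕ → List A, (∀ n, x n ∈ L I) → ∃ i j, i < j ∧ Steps I (x i) (x j)

/-- the six permutations of the word `abc`, the letters being `0, 1, 2`. -/
def I₀ : Finset (List (Fin 3)) :=
  {[0, 1, 2], [0, 2, 1], [1, 0, 2], [1, 2, 0], [2, 0, 1], [2, 1, 0]}

theorem mem_I₀ {w : List (Fin 3)} : w ∈ I₀ ↔ w.Perm [0, 1, 2] := by
  constructor
  · intro h
    simp only [I₀, Finset.mem_insert, Finset.mem_singleton] at h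
    rcases h with h | h | h | h | h | h <;> subst h <;> decide
  · intro h
    have h2 : ∀ a b c : Fin 3, [a, b, c].Perm [0, 1, 2] → [a, b, c] ∈ I₀ := by decide
    have h3 := h.length_eq
    match w, h3 with
    | [a, b, c], _ => exact h2 a b c h

/-- `v` is a shuffle of `u` and `w` -/
inductive Sh {A : Type} : List A → List A → List A → Prop
  | nil : Sh [] [] []
  | left (a : A) {u w v : List A} : Sh u w v → Sh (a :: u) w (a :: v)
  | right (a : A) {u w v : List A} : Sh u w v → Sh u (a :: w) (a :: v)

variable {A : Type}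

theorem Sh.symm {u w v : List A} (h : Sh u w v) : Sh w u v := by
  induction h with
  | nil => exact .nil
  | left a _ ih => exact .right a ih
  | right a _ ih => exact .left a ih

theorem Sh.perm {u w v : List A} (h : Sh u w v) : v.Perm (u ++ w) := by
  induction h with
  | nil => simp
  | left a _ ih => simpa using ih
  | right a _ ih => exact (ih.cons a).trans List.perm_middle.symm

theorem Sh.of_sublist {u v : List A} (h : u.Sublist v) : ∃ c, Sh u c v := by
  induction h with
  | slnil => exact ⟨[], .nil⟩
  | cons a _ ih => obtain ⟨c, hc⟩ := ih; exact ⟨a :: c, .right a hc⟩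
  | cons_cons a _ ih => obtain ⟨c, hc⟩ := ih; exact ⟨c, .left a hc⟩

theorem Sh.sublist {u w v : List A} (h : Sh u w v) : u.Sublist v := by
  induction h with
  | nil => exact .slnil
  | left a _ ih => exact ih.cons_cons a
  | right a _ ih => exact ih.cons a

theorem Sh.assoc {u c v : List A} (h : Sh u c v) : ∀ {c' w : List A}, Sh c' w c →
    ∃ t, Sh u c' t ∧ Sh t w v := by
  induction h with
  | nil =>
    intro c' w h
    cases h
    exact ⟨[], .nil, .nil⟩
  | left a _ ih =>
    intro c' w h
    obtain ⟨t, h1, h2⟩ := ih h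
    exact ⟨a :: t, .left a h1, .left a h2⟩
  | right a _ ih =>
    intro c' w h
    cases h with
    | left _ h =>
      obtain ⟨t, h1, h2⟩ := ih h
      exact ⟨a :: t, .right a h1, .left a h2⟩
    | right _ h =>
      obtain ⟨t, h1, h2⟩ := ih h
      exact ⟨t, h1, .right a h2⟩

theorem Sh.step {I : Set (List A)} {t w v : List A} (h : Sh t w v) (hw : w ∈ I) (h0 : w ≠ []) :
    Step I t v := by
  have key : ∃ (l : List (List A × A)) (r : List A), l.map Prod.snd = w ∧
    t = (l.map Prod.fst).flatten ++ r ∧ v = (l.map fun p => p.1 ++ [p.2]).flatten ++ r := by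
    clear hw h0
    induction h with
    | nil => exact ⟨[], [], rfl, rfl, rfl⟩
    | left a _ ih =>
      obtain ⟨l, r, h1, h2, h3⟩ := ih
      rcases l with _ | ⟨⟨p, b⟩, l⟩
      · exact ⟨[], a :: r, h1, by simpa using h2, by simpa using h3⟩
      · exact ⟨(a :: p, b) :: l, r, h1, by simpa using h2, by simpa using h3⟩
    | right a _ ih =>
      obtain ⟨l, r, h1, h2, h3⟩ := ih
      exact ⟨([], a) :: l, r, by simp [h1], by simpa using h2, by simpa using h3⟩
  obtain ⟨l, r, h1, h2, h3⟩ := key
  refine ⟨l, r, ?_, h1 ▸ hw, h2, h3⟩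
  rintro rfl
  exact h0 (by simpa using h1.symm)

theorem Step.perm {I : Set (List A)} {u v : List A} (h : Step I u v) :
    ∃ w ∈ I, v.Perm (u ++ w) := by
  obtain ⟨l, r, -, h1, rfl, rfl⟩ := h
  refine ⟨_, h1, ?_⟩
  clear h1
  induction l with
  | nil => simp
  | cons p l ih =>
    simp only [List.map_cons, List.flatten_cons, List.append_assoc]
    refine List.Perm.append_left _ ?_
    refine (ih.cons p.2).trans ?_
    simp only [List.append_assoc]
    have h1 : (p.2 :: ((List.map Prod.fst l).flatten ++ (r ++ List.map Prod.snd l))).Perm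
      (((List.map Prod.fst l).flatten ++ r) ++ p.2 :: List.map Prod.snd l) := by
      rw [← List.append_assoc]
      exact List.perm_middle.symm
    simpa using h1

/-- equal numbers of occurrences of the three letters -/
def Bal (u : List (Fin 3)) : Prop := ∀ a b, u.count a = u.count b

theorem count_I₀ {w : List (Fin 3)} (h : w ∈ I₀) (a : Fin 3) : w.count a = 1 := by
  rw [(mem_I₀.1 h).count_eq]
  revert a
  decide

theorem Step.bal {u v : List (Fin 3)} (h : Step (↑I₀ : Set (List (Fin 3))) u v) (hu : Bal u) :
    Bal v := by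
  obtain ⟨w, hw, h1⟩ := h.perm
  intro a b
  have hw' : w ∈ I₀ := by simpa using hw
  rw [h1.count_eq, h1.count_eq, List.count_append, List.count_append,
    count_I₀ hw' a, count_I₀ hw' b, hu a b]

theorem steps_of_sublist (k : ℕ) : ∀ {u v : List (Fin 3)}, v.length ≤ k → u.Sublist v → Bal u →
    Bal v → Steps (↑I₀ : Set (List (Fin 3))) u v := by
  induction k using Nat.strong_induction_on with
  | _ k ih =>
    intro u v hk huv hu hv
    obtain ⟨c, hc⟩ := Sh.of_sublist huv
    have hcb : Bal c := by
      intro a b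
      have h1 := hc.perm.count_eq a
      have h2 := hc.perm.count_eq b
      rw [List.count_append] at h1 h2
      have h3 := hu a b
      have h4 := hv a b
      omega
    by_cases hc0 : c = []
    · subst hc0
      have h1 := hc.perm.length_eq
      have h2 : u = v := huv.eq_of_length (by simpa using h1.symm)
      rw [h2]
      exact Relation.ReflTransGen.refl
    · obtain ⟨a, ha⟩ := List.exists_mem_of_ne_nil c hc0
      have h1 : ∀ b, 1 ≤ c.count b := by
        intro b
        rw [hcb b a]
        exact List.count_pos_iff.2 ha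
      have h2 : ([0, 1, 2] : List (Fin 3)).Subperm c := by
        rw [List.subperm_iff_count]
        intro b
        refine le_trans ?_ (h1 b)
        revert b
        decide
      obtain ⟨w, hw1, hw2⟩ := h2
      obtain ⟨c', hc'⟩ := Sh.of_sublist hw2
      obtain ⟨t, ht1, ht2⟩ := hc.assoc hc'.symm
      have hwI : w ∈ I₀ := mem_I₀.2 hw1
      have hwl : w.length = 3 := by simpa using hw1.length_eq
      have h3 : Step (↑I₀ : Set (List (Fin 3))) t v :=
        ht2.step (by simpa using hwI) (by rintro rfl; simp at hwl)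
      have hlen := ht2.perm.length_eq
      rw [List.length_append] at hlen
      have htb : Bal t := by
        intro a b
        have h4 := ht2.perm.count_eq a
        have h5 := ht2.perm.count_eq b
        rw [List.count_append, count_I₀ hwI] at h4 h5
        have h6 := hv a b
        omega
      exact (ih t.length (by omega) le_rfl ht1.sublist hu htb).tail h3

theorem mem_L {u : List (Fin 3)} : u ∈ L (↑I₀ : Set (List (Fin 3))) ↔ Bal u := by
  constructor
  · intro h
    change Steps _ _ _ at h
    induction h with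
    | refl => intro a b; simp
    | tail _ h ih => exact h.bal ih
  · intro h
    exact steps_of_sublist _ le_rfl (List.nil_sublist u) (by intro a b; simp) h

theorem higman (x : ℕ → List (Fin 3)) : ∃ i j, i < j ∧ (x i).Sublist (x j) := by
  have h1 : (Set.univ : Set (Fin 3)).PartiallyWellOrderedOn (· = ·) :=
    Set.finite_univ.partiallyWellOrderedOn
  have h2 := Set.PartiallyWellOrderedOn.partiallyWellOrderedOn_sublistForall₂ (· = ·) h1
  obtain ⟨i, j, hij, h3⟩ := h2 (fun n => ⟨x n, fun y _ => Set.mem_univ y⟩)
  refine ⟨i, j, hij, ?_⟩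
  obtain ⟨l, h4, h5⟩ := List.sublistForall₂_iff.1 h3
  rw [List.forall₂_eq_eq_eq] at h4
  have h6 : x i = l := h4
  rw [h6]
  exact h5

theorem wqo : WqoOn (↑I₀ : Set (List (Fin 3))) := by
  intro x hx
  obtain ⟨i, j, hij, h⟩ := higman x
  exact ⟨i, j, hij, steps_of_sublist _ le_rfl h (mem_L.1 (hx i)) (mem_L.1 (hx j))⟩

theorem not_cf : ¬ (L (↑I₀ : Set (List (Fin 3)))).IsContextFree := by
  rintro ⟨g, hg⟩
  obtain ⟨n, hn⟩ : ∃ n : ℕ, n = width g ^ ((inputs g).card *
      Fintype.card (Option (Fin 3) × Option (Fin 3))) + 1 := ⟨_, rfl⟩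
  let w : List (Fin 3) := List.replicate n 0 ++ (List.replicate n 1 ++ List.replicate n 2)
  have hwB : Bal w := by
    intro a b
    fin_cases a <;> fin_cases b <;> simp [w, List.count_replicate]
  have hwm : w ∈ g.language := by rw [hg]; exact mem_L.2 hwB
  have hws : w.Pairwise (· ≤ ·) := by
    simp only [w]
    rw [List.pairwise_append]
    refine ⟨List.pairwise_replicate.2 (Or.inr le_rfl), ?_, ?_⟩
    · rw [List.pairwise_append]
      refine ⟨List.pairwise_replicate.2 (Or.inr le_rfl),
        List.pairwise_replicate.2 (Or.inr le_rfl), ?_⟩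
      intro a ha b hb
      rw [List.eq_of_mem_replicate ha, List.eq_of_mem_replicate hb]
      decide
    · intro a ha b hb
      rw [List.eq_of_mem_replicate ha]
      exact Fin.zero_le _
  obtain ⟨u, v, x, y, z, h1, h2, h3, h4⟩ := pumpingC (g := g)
    (fun p q => (p.getLast?, q.head?)) hwm (by
      simp only [w, List.length_append, List.length_replicate]
      omega)
  have h5 : Bal (u ++ x ++ z) := by
    have := h4 0
    rw [hg] at this
    simpa using mem_L.1 this
  simp only [Prod.mk.injEq] at h3
  obtain ⟨h3a, h3b⟩ := h3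
  rw [h1] at hws
  -- the letters of `v` are equal
  have hv : ∃ a : Fin 3, ∀ b ∈ v, b = a := by
    by_cases hv0 : v = []
    · exact ⟨0, by simp [hv0]⟩
    · rw [List.getLast?_append_of_ne_nil _ hv0] at h3a
      obtain ⟨v', a, rfl⟩ : ∃ v' a, v = v' ++ [a] := ⟨_, _, (List.dropLast_append_getLast hv0).symm⟩
      simp only [List.getLast?_append, List.getLast?_singleton, Option.some_or] at h3a
      obtain ⟨u', rfl⟩ : ∃ u', u = u' ++ [a] := by
        rw [List.getLast?_eq_some_iff] at h3a
        exact h3a
      refine ⟨a, fun b hb => ?_⟩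
      simp only [List.mem_append, List.mem_singleton] at hb
      rcases hb with hb | hb
      · simp only [List.pairwise_append, List.mem_append, List.mem_singleton] at hws
        have h7 : b ≤ a := hws.1.1.1.2.1.2.2 b hb a rfl
        have h9 : a ≤ b := hws.1.1.1.2.2 a (Or.inr rfl) b (Or.inl hb)
        exact le_antisymm h7 h9
      · exact hb
  have hy : ∃ a : Fin 3, ∀ b ∈ y, b = a := by
    rcases y with _ | ⟨a, y'⟩
    · exact ⟨0, by simp⟩
    · simp only [List.cons_append, List.head?_cons] at h3b
      obtain ⟨z', rfl⟩ : ∃ z', z = a :: z' := by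
        rw [List.head?_eq_some_iff] at h3b
        exact h3b
      refine ⟨a, fun b hb => ?_⟩
      rcases List.mem_cons.1 hb with hb | hb
      · exact hb
      · simp only [List.pairwise_append, List.mem_append, List.mem_cons, List.pairwise_cons] at hws
        have h7 : a ≤ b := hws.1.2.1.1 b hb
        have h9 : b ≤ a := hws.2.2 b (Or.inr (Or.inr hb)) a (Or.inl rfl)
        exact le_antisymm h9 h7
  obtain ⟨a, ha⟩ := hv
  obtain ⟨b, hb⟩ := hy
  obtain ⟨d, hda, hdb⟩ : ∃ d : Fin 3, d ≠ a ∧ d ≠ b := by
    clear ha hb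
    revert a b
    decide
  have h6 : ∀ e, w.count e = (u ++ x ++ z).count e + (v.count e + y.count e) := by
    intro e
    rw [h1]
    simp only [List.count_append]
    omega
  have h7 : v.count d = 0 := List.count_eq_zero.2 fun h => hda (ha d h)
  have h8 : y.count d = 0 := List.count_eq_zero.2 fun h => hdb (hb d h)
  have h9 : ∀ e, v.count e = 0 ∧ y.count e = 0 := by
    intro e
    have h10 := h6 e
    have h11 := h6 d
    have h12 := hwB e d
    have h13 := h5 e d
    omega
  rcases h2 with h2 | h2
  · obtain ⟨e, he⟩ := List.exists_mem_of_ne_nil _ h2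
    exact absurd (List.count_pos_iff.2 he) (by rw [(h9 e).1]; omega)
  · obtain ⟨e, he⟩ := List.exists_mem_of_ne_nil _ h2
    exact absurd (List.count_pos_iff.2 he) (by rw [(h9 e).2]; omega)

/-- **The answer to the question is no.** There are a finite alphabet `A` and a finite set `I` of
nonempty words over `A` (the six permutations of `abc`) such that `⊢_I^*` is a well quasi-order on
`L_I`, while `L_I` is not context-free; so it is not true that for all finite `A` and `I` the
quasi-order `⊢_I^*` is a well quasi-order on `L_I` if and only if `L_I` is context-free. -/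
theorem result :
    (∃ I : Finset (List (Fin 3)), [] ∉ I ∧ WqoOn (↑I : Set (List (Fin 3))) ∧
      ¬ (L (↑I : Set (List (Fin 3)))).IsContextFree) ∧
    ¬ ∀ (A : Type) [Finite A] (I : Finset (List A)), [] ∉ I →
      (WqoOn (↑I : Set (List A)) ↔ (L (↑I : Set (List A))).IsContextFree) :=
  ⟨⟨I₀, by decide, wqo, not_cf⟩, fun h => not_cf ((h (Fin 3) I₀ (by decide)).1 wqo)⟩

end Pool.Agent.Results.MP_709eaf_lc.PermutationInsertion
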